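import Mathlib
import Pool.Agent.MP_27eeb4_an.Final

/-!
A real valued orthonormal wavelet in the Schwartz class whose Fourier transform does not have
compact support.
-/

open MeasureTheory FourierTransform
open scoped SchwartzMap

namespace Pool.Agent.Results.MP_27eeb4_an.NonBandlimited

/-- `ψ` is an orthonormal wavelet: the functions `x ↦ 2^(j/2) ψ(2^j x - k)`, for `j, k` integers,
are the members of an orthonormal basis of `L²(ℝ)` (they are orthonormal and their linear span is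
dense). -/
def IsOrthonormalWavelet (ψ : ℝ → ℂ) : Prop :=
  ∃ v : ℤ × ℤ → Lp ℂ 2 (volume : Measure ℝ),
    (∀ p : ℤ × ℤ, v p =ᵐ[volume] fun x : ℝ =>
      (((2:ℝ) ^ ((p.1 : ℝ) / 2) : ℝ) : ℂ) * ψ ((2:ℝ) ^ p.1 * x - (p.2 : ℝ))) ∧
    Orthonormal ℂ v ∧ (Submodule.span ℂ (Set.range v)).topologicalClosure = ⊤

/-- There is a real valued Schwartz function `ψ` on the line which is an orthonormal wavelet and
whose Fourier transform is not compactly supported. -/
theorem result : ∃ ψ : 𝓢(ℝ, ℂ), IsOrthonormalWavelet (ψ : ℝ → ℂ) ∧ (∀ x : ℝ, (ψ x).im = 0) ∧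
    ¬ HasCompactSupport (𝓕 (ψ : ℝ → ℂ)) := by
  refine ⟨MP27eeb4.psiS, ⟨MP27eeb4.wbasis, fun p => ?_, ?_, ?_⟩, MP27eeb4.psiS_real, ?_⟩
  · refine (MP27eeb4.wbasis_coe p).trans (Filter.Eventually.of_forall fun x => ?_)
    have h : (2:ℝ) ^ ((p.1 : ℝ) / 2) = √((2:ℝ) ^ p.1) := by
      rw [Real.sqrt_eq_rpow, ← Real.rpow_intCast, ← Real.rpow_mul (by norm_num)]
      congr 1
      ring
    simp only [h]
  · exact MP27eeb4.wbasis.orthonormal
  · exact MP27eeb4.wbasis.dense_span
  · rw [MP27eeb4.fourier_psiS]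
    exact MP27eeb4.not_compact

end Pool.Agent.Results.MP_27eeb4_an.NonBandlimited
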